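import Mathlib

set_option linter.unusedSectionVars false

namespace Pool.Agent.H.MP_449b18_an
open Finset

lemma exists_lev : ∃ lev : ℝ → ℕ, ∀ x, 0 < x → x ≤ 1 →
    (1 / 2 : ℝ) ^ (lev x + 1) < x ∧ x ≤ (1 / 2) ^ lev x := by
  have : ∀ x : ℝ, ∃ n : ℕ, 0 < x → x ≤ 1 → (1 / 2 : ℝ) ^ (n + 1) < x ∧ x ≤ (1 / 2) ^ n := by
    intro x
    by_cases h : 0 < x ∧ x ≤ 1
    · obtain ⟨n, hn⟩ := exists_nat_pow_near_of_lt_one h.1 h.2 (by norm_num : (0 : ℝ) < 1 / 2)
        (by norm_num)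
      exact ⟨n, fun _ _ => hn⟩
    · exact ⟨0, fun h1 h2 => absurd ⟨h1, h2⟩ h⟩
  choose lev h using this
  exact ⟨lev, h⟩

variable {Γ : Type} [DecidableEq Γ]

lemma le_one_of {G : Finset Γ} {b : Γ → ℝ} (h : ∑ y ∈ G, b y ^ 2 ≤ 1) {y : Γ} (hy : y ∈ G) :
    b y ≤ 1 := by
  have := single_le_sum (f := fun y => b y ^ 2) (fun _ _ => sq_nonneg _) hy
  nlinarith

open Classical in
noncomputable def Lv (lev : ℝ → ℕ) (G : Finset Γ) (b : Γ → ℝ) (j : ℕ) : Finset Γ :=
  G.filter fun y => 0 < b y ∧ lev (b y) = j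

noncomputable def U (lev : ℝ → ℕ) (G : Finset Γ) (b : Γ → ℝ) (j : ℕ) : ℝ :=
  (1 / 2) ^ j * √((Lv lev G b j).card)

lemma U_nonneg (lev : ℝ → ℕ) (G : Finset Γ) (b : Γ → ℝ) (j : ℕ) : 0 ≤ U lev G b j := by
  unfold U; positivity

lemma sum_U {lev : ℝ → ℕ} (hl : ∀ x, 0 < x → x ≤ 1 →
    (1 / 2 : ℝ) ^ (lev x + 1) < x ∧ x ≤ (1 / 2) ^ lev x) {G : Finset Γ} {b : Γ → ℝ}
    (h : ∑ y ∈ G, b y ^ 2 ≤ 1) (I : Finset ℕ) : ∑ j ∈ I, U lev G b j ^ 2 ≤ 4 := by
  calc _ ≤ ∑ j ∈ I, ∑ y ∈ G, if lev (b y) = j then 4 * b y ^ 2 else 0 := by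
        refine sum_le_sum fun j _ => ?_
        rw [U, mul_pow, Real.sq_sqrt (Nat.cast_nonneg _), mul_comm, ← nsmul_eq_mul, ← sum_const, Lv,
          sum_filter]
        refine sum_le_sum fun y hy => ?_
        split_ifs with h1 h2 h2
        · have := (hl _ h1.1 (le_one_of h hy)).1
          rw [h2, pow_succ] at this
          have h3 : (0 : ℝ) < (1 / 2) ^ j := by positivity
          nlinarith
        · exact absurd h1.2 h2
        · positivity
        · rfl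
    _ ≤ ∑ y ∈ G, 4 * b y ^ 2 := by
        rw [sum_comm]
        refine sum_le_sum fun y _ => ?_
        rw [sum_ite_eq]
        split_ifs
        · rfl
        · positivity
    _ ≤ 4 := by rw [← mul_sum]; linarith

lemma band {u v : ℕ → ℝ} {M L : ℕ} (hu : ∑ j ∈ range M, u j ^ 2 ≤ 4) (hv : ∑ j ∈ range M, v j ^ 2 ≤ 4) :
    ∑ j ∈ range M, ∑ k ∈ range M, (if j ≤ k + L ∧ k ≤ j + L then u j * v k else 0) ≤
      4 * (2 * L + 1) := by
  have c : ∀ (j : ℕ) (t : ℝ), 0 ≤ t →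
      ∑ k ∈ range M, (if j ≤ k + L ∧ k ≤ j + L then t else 0) ≤ (2 * L + 1) * t := by
    intro j t ht
    rw [← sum_filter, sum_const, nsmul_eq_mul]
    refine mul_le_mul_of_nonneg_right ?_ ht
    have : ((range M).filter fun k => j ≤ k + L ∧ k ≤ j + L).card ≤ 2 * L + 1 := by
      refine (card_le_card (t := Icc (j - L) (j + L)) fun k hk => ?_).trans ?_
      · have := (mem_filter.1 hk).2
        rw [mem_Icc]; omega
      · rw [Nat.card_Icc]; omega
    exact_mod_cast this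
  have h1 := sum_le_sum fun j (_ : j ∈ range M) => c j (u j ^ 2) (sq_nonneg _)
  have h2 := sum_le_sum fun j (_ : j ∈ range M) => c j (v j ^ 2) (sq_nonneg _)
  rw [sum_comm] at h2
  rw [← mul_sum] at h1 h2
  have h3 : 2 * ∑ j ∈ range M, ∑ k ∈ range M, (if j ≤ k + L ∧ k ≤ j + L then u j * v k else 0) ≤
      ∑ j ∈ range M, ∑ k ∈ range M, (if j ≤ k + L ∧ k ≤ j + L then u j ^ 2 else 0) +
      ∑ j ∈ range M, ∑ k ∈ range M, (if k ≤ j + L ∧ j ≤ k + L then v k ^ 2 else 0) := by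
    simp only [mul_sum, ← sum_add_distrib]
    refine sum_le_sum fun j _ => sum_le_sum fun k _ => ?_
    simp only [and_comm (a := k ≤ j + L)]
    split_ifs
    · nlinarith [sq_nonneg (u j - v k)]
    · simp
  have : (0 : ℝ) ≤ 2 * L + 1 := by positivity
  nlinarith

variable [Group Γ]

def T (F G H : Finset Γ) (φ : Γ → Γ → Γ → ℝ) : ℝ :=
  ∑ x ∈ F, ∑ y ∈ G, ∑ z ∈ H, if x * y * z = 1 then φ x y z else 0

lemma T_one (A B C : Finset Γ) : T A B C (fun _ _ _ => 1) =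
    ((A ×ˢ B ×ˢ C).filter (fun t => t.1 * t.2.1 * t.2.2 = 1)).card := by
  simp only [T, card_filter, sum_product]
  push_cast
  rfl

lemma T_mono {F G H : Finset Γ} {φ ψ : Γ → Γ → Γ → ℝ}
    (h : ∀ x ∈ F, ∀ y ∈ G, ∀ z ∈ H, φ x y z ≤ ψ x y z) : T F G H φ ≤ T F G H ψ :=
  sum_le_sum fun x hx => sum_le_sum fun y hy => sum_le_sum fun z hz => by
    split_ifs
    · exact h x hx y hy z hz
    · rfl

lemma T_add (F G H : Finset Γ) (φ ψ : Γ → Γ → Γ → ℝ) :
    T F G H (fun x y z => φ x y z + ψ x y z) = T F G H φ + T F G H ψ := by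
  simp only [T, ← sum_add_distrib]
  refine sum_congr rfl fun _ _ => sum_congr rfl fun _ _ => sum_congr rfl fun _ _ => ?_
  split_ifs <;> simp

lemma T_mul (F G H : Finset Γ) (t : ℝ) (φ : Γ → Γ → Γ → ℝ) :
    T F G H (fun x y z => t * φ x y z) = t * T F G H φ := by
  simp [T, mul_sum]

lemma T_sum {ι : Type} (I : Finset ι) (F G H : Finset Γ) (φ : ι → Γ → Γ → Γ → ℝ) :
    T F G H (fun x y z => ∑ i ∈ I, φ i x y z) = ∑ i ∈ I, T F G H (φ i) := by
  classical
  induction I using Finset.induction_on with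
  | empty => simp [T]
  | insert i I hi ih => simp only [sum_insert hi, T_add, ih]

lemma T_ind {F G H A B C : Finset Γ} (hA : A ⊆ F) (hB : B ⊆ G) (hC : C ⊆ H) :
    T F G H (fun x y z => if x ∈ A ∧ y ∈ B ∧ z ∈ C then 1 else 0) = T A B C fun _ _ _ => 1 := by
  unfold T
  rw [← sum_subset hA fun x _ hx => by simp [hx]]
  refine sum_congr rfl fun x hx => ?_
  rw [← sum_subset hB fun y _ hy => by simp [hy]]
  refine sum_congr rfl fun y hy => ?_
  rw [← sum_subset hC fun z _ hz => by simp [hz]]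
  exact sum_congr rfl fun z hz => by simp [hx, hy, hz]

lemma T_sq (F G H : Finset Γ) {b c : Γ → ℝ} (hb : ∑ y ∈ G, b y ^ 2 ≤ 1) (hc : ∑ y ∈ H, c y ^ 2 ≤ 1) :
    T F G H (fun _ y z => b y ^ 2 + c z ^ 2) ≤ F.card * 2 := by
  rw [T_add, T, T, ← sum_add_distrib, ← nsmul_eq_mul]
  refine sum_le_card_nsmul _ _ _ fun x _ => ?_
  have h1 : ∑ y ∈ G, ∑ z ∈ H, (if x * y * z = 1 then b y ^ 2 else 0) ≤ 1 := by
    refine (sum_le_sum fun y _ => ?_).trans hb
    simp only [mul_eq_one_iff_inv_eq (a := x * y), sum_ite_eq]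
    split_ifs
    · rfl
    · positivity
  have h2 : ∑ y ∈ G, ∑ z ∈ H, (if x * y * z = 1 then c z ^ 2 else 0) ≤ 1 := by
    rw [sum_comm]
    refine (sum_le_sum fun z _ => ?_).trans hc
    simp only [mul_eq_one_iff_eq_inv (b := z), ← eq_inv_mul_iff_mul_eq (b := x), sum_ite_eq']
    split_ifs
    · rfl
    · positivity
  linarith

theorem normed {F G H : Finset Γ} {a b c : Γ → ℝ} (a0 : ∀ x, 0 ≤ a x) (b0 : ∀ x, 0 ≤ b x)
    (c0 : ∀ x, 0 ≤ c x) (ha : ∑ y ∈ F, a y ^ 2 ≤ 1) (hb : ∑ y ∈ G, b y ^ 2 ≤ 1)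
    (hc : ∑ y ∈ H, c y ^ 2 ≤ 1) {L : ℕ} (hL : F.card ≤ 2 ^ L) {P : ℝ} (P0 : 0 ≤ P)
    (hP : ∀ A B C : Finset Γ, A ⊆ F → T A B C (fun _ _ _ => 1) ≤ P * √(A.card * B.card * C.card)) :
    T F G H (fun x y z => a x * b y * c z) ≤ 2 + P * (8 * L * (2 * L + 1)) := by
  obtain ⟨lev, hl⟩ := exists_lev
  obtain ⟨M, hM⟩ : ∃ M, (∀ y ∈ G, lev (b y) < M) ∧ ∀ y ∈ H, lev (c y) < M :=
    ⟨G.sup (fun y => lev (b y)) + H.sup (fun y => lev (c y)) + 1,
      fun y hy => by have := le_sup (f := fun y => lev (b y)) hy; omega,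
      fun y hy => by have := le_sup (f := fun y => lev (c y)) hy; omega⟩
  have lt : ∀ {i j : ℕ}, (1 / 2 : ℝ) ^ i < (1 / 2) ^ j → j < i := fun h =>
    (pow_lt_pow_iff_right_of_lt_one₀ (by norm_num) (by norm_num)).1 h
  let I := range L ×ˢ (range M ×ˢ range M).filter fun p => p.1 ≤ p.2 + L ∧ p.2 ≤ p.1 + L
  have key : T F G H (fun x y z => a x * b y * c z) ≤ T F G H fun x y z =>
      (1 / 2) ^ L * (b y ^ 2 + c z ^ 2) + ∑ p ∈ I, (1 / 2) ^ p.1 * (1 / 2) ^ p.2.1 * (1 / 2) ^ p.2.2 *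
        if x ∈ Lv lev F a p.1 ∧ y ∈ Lv lev G b p.2.1 ∧ z ∈ Lv lev H c p.2.2 then 1 else 0 := by
    refine T_mono fun x hx y hy z hz => ?_
    have a1 := le_one_of ha hx
    have b1 := le_one_of hb hy
    have c1 := le_one_of hc hz
    have e0 : (0 : ℝ) < (1 / 2) ^ L := by positivity
    have nn : ∀ p ∈ I, (0 : ℝ) ≤ (1 / 2) ^ p.1 * (1 / 2) ^ p.2.1 * (1 / 2) ^ p.2.2 *
        if x ∈ Lv lev F a p.1 ∧ y ∈ Lv lev G b p.2.1 ∧ z ∈ Lv lev H c p.2.2 then 1 else 0 :=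
      fun p _ => by positivity
    have ax := a0 x
    have bx := b0 y
    have cx := c0 z
    have bc := mul_nonneg bx cx
    by_cases h : (1 / 2) ^ L < a x ∧ (1 / 2) ^ L * b y < c z ∧ (1 / 2) ^ L * c z < b y
    · obtain ⟨h1, h2, h3⟩ := h
      have ap := e0.trans h1
      have cp : 0 < c z := lt_of_le_of_lt (by positivity) h2
      have bp : 0 < b y := lt_of_le_of_lt (by positivity) h3
      obtain ⟨-, l1⟩ := hl _ ap a1
      obtain ⟨l2, l3⟩ := hl _ bp b1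
      obtain ⟨l4, l5⟩ := hl _ cp c1
      have k1 := lt (h1.trans_le l1)
      have k2 := lt (i := L + (lev (b y) + 1)) (j := lev (c z)) (by rw [pow_add]; nlinarith)
      have k3 := lt (i := L + (lev (c z) + 1)) (j := lev (b y)) (by rw [pow_add]; nlinarith)
      have m : (lev (a x), lev (b y), lev (c z)) ∈ I := by
        simp only [I, mem_product, mem_filter, mem_range]
        exact ⟨k1, ⟨hM.1 y hy, hM.2 z hz⟩, by omega, by omega⟩
      refine le_add_of_nonneg_of_le (by positivity) (le_trans ?_ (single_le_sum nn m))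
      rw [if_pos (by simp [Lv, *]), mul_one]
      gcongr
    · refine le_add_of_le_of_nonneg ?_ (sum_nonneg nn)
      have h4 : a x * b y * c z ≤ b y * c z := by nlinarith
      simp only [not_and_or, not_lt] at h
      rcases h with h | h | h
      · nlinarith [mul_le_mul_of_nonneg_right h bc, mul_nonneg e0.le (sq_nonneg (b y - c z)),
          mul_nonneg e0.le bc]
      · nlinarith [mul_le_mul_of_nonneg_left h bx, mul_nonneg e0.le (sq_nonneg (c z))]
      · nlinarith [mul_le_mul_of_nonneg_left h cx, mul_nonneg e0.le (sq_nonneg (b y))]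
  refine key.trans ?_
  rw [T_add, T_mul, T_sum]
  refine add_le_add ?_ ?_
  · have h1 : (F.card : ℝ) ≤ 2 ^ L := by exact_mod_cast hL
    calc _ ≤ (1 / 2 : ℝ) ^ L * (2 ^ L * 2) :=
          mul_le_mul_of_nonneg_left ((T_sq F G H hb hc).trans (by linarith)) (by positivity)
      _ = 2 := by rw [← mul_assoc, ← mul_pow]; norm_num
  · calc _ ≤ ∑ p ∈ I, P * (2 * (U lev G b p.2.1 * U lev H c p.2.2)) := by
          refine sum_le_sum fun p _ => ?_
          have s1 : Lv lev F a p.1 ⊆ F := filter_subset _ _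
          have s2 : Lv lev G b p.2.1 ⊆ G := filter_subset _ _
          have s3 : Lv lev H c p.2.2 ⊆ H := filter_subset _ _
          rw [T_mul, T_ind s1 s2 s3]
          refine (mul_le_mul_of_nonneg_left (hP _ _ _ s1) (by positivity)).trans ?_
          have h2 : U lev F a p.1 ≤ 2 := by
            have := sum_U hl ha {p.1}
            rw [sum_singleton] at this
            nlinarith
          have h3 := mul_nonneg (U_nonneg lev G b p.2.1) (U_nonneg lev H c p.2.2)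
          calc _ = P * (U lev F a p.1 * (U lev G b p.2.1 * U lev H c p.2.2)) := by
                rw [Real.sqrt_mul' _ (Nat.cast_nonneg _), Real.sqrt_mul' _ (Nat.cast_nonneg _)]
                unfold U
                ring
            _ ≤ _ := by gcongr
      _ ≤ _ := by
          rw [← mul_sum, ← mul_sum]
          refine mul_le_mul_of_nonneg_left ?_ P0
          have := band (L := L) (sum_U hl hb (range M)) (sum_U hl hc (range M))
          rw [sum_product]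
          simp only [sum_const, card_range, nsmul_eq_mul, sum_filter, sum_product]
          nlinarith [mul_le_mul_of_nonneg_left this (Nat.cast_nonneg L)]

theorem scaled {F G H : Finset Γ} {a b c : Γ → ℝ} (a0 : ∀ x, 0 ≤ a x) (b0 : ∀ x, 0 ≤ b x)
    (c0 : ∀ x, 0 ≤ c x) {L : ℕ} (hL : F.card ≤ 2 ^ L) {P : ℝ} (P0 : 0 ≤ P)
    (hP : ∀ A B C : Finset Γ, A ⊆ F → T A B C (fun _ _ _ => 1) ≤ P * √(A.card * B.card * C.card)) :
    T F G H (fun x y z => a x * b y * c z) ≤ (2 + P * (8 * L * (2 * L + 1))) *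
      (√(∑ y ∈ F, a y ^ 2) * √(∑ y ∈ G, b y ^ 2) * √(∑ y ∈ H, c y ^ 2)) := by
  have n : ∀ (F : Finset Γ) (a : Γ → ℝ), ∑ y ∈ F, (a y / √(∑ y ∈ F, a y ^ 2)) ^ 2 ≤ 1 ∧
      ∀ x ∈ F, a x = √(∑ y ∈ F, a y ^ 2) * (a x / √(∑ y ∈ F, a y ^ 2)) := by
    intro F a
    have h0 : 0 ≤ ∑ y ∈ F, a y ^ 2 := sum_nonneg fun _ _ => sq_nonneg _
    refine ⟨?_, fun x hx => ?_⟩
    · simp only [div_pow, Real.sq_sqrt h0, ← sum_div]
      exact div_self_le_one _
    · rcases h0.eq_or_lt with h | h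
      · have := (sum_eq_zero_iff_of_nonneg fun _ _ => sq_nonneg _).1 h.symm x hx
        simp [pow_eq_zero_iff] at this
        simp [this]
      · have := Real.sqrt_pos.2 h
        field_simp
  have := normed (fun x => div_nonneg (a0 x) (Real.sqrt_nonneg _))
    (fun x => div_nonneg (b0 x) (Real.sqrt_nonneg _)) (fun x => div_nonneg (c0 x) (Real.sqrt_nonneg _))
    (n F a).1 (n G b).1 (n H c).1 hL P0 hP
  rw [mul_comm]
  refine le_trans ?_ (mul_le_mul_of_nonneg_left this (by positivity))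
  rw [← T_mul]
  refine T_mono fun x hx y hy z hz => le_of_eq ?_
  conv_lhs => rw [(n F a).2 x hx, (n G b).2 y hy, (n H c).2 z hz]
  ring

end Pool.Agent.H.MP_449b18_an
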